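import Pool.Agent.Helper2.NNP.Stm

/-!
# Parts INT1 and INT2: the first derivative test
-/

set_option autoImplicit false

open MeasureTheory Filter Topology Finset
open scoped Real

namespace Pool.Agent.Helper98.NNP

open Pool.Agent.Helper2.NNP

/-- `exp (i t)` -/
noncomputable def ex (t : ℝ) : ℂ := Complex.exp ((t : ℂ) * Complex.I)

theorem norm_ex (t : ℝ) : ‖ex t‖ = 1 := by
  unfold ex
  exact Complex.norm_exp_ofReal_mul_I t

theorem conj_ex (t : ℝ) : (starRingEnd ℂ) (ex t) = ex (-t) := by
  unfold ex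
  rw [← Complex.exp_conj, map_mul, Complex.conj_I, Complex.conj_ofReal]
  push_cast
  ring_nf

theorem norm_neg (φ : ℝ → ℝ) (A B : ℝ) : ‖∫ x in A..B, ex (-φ x)‖ = ‖∫ x in A..B, ex (φ x)‖ := by
  have h1 : ∫ x in A..B, ex (-φ x) = (starRingEnd ℂ) (∫ x in A..B, ex (φ x)) := by
    simp only [intervalIntegral, map_sub, ← integral_conj, conj_ex]
  rw [h1, RCLike.norm_conj]

/-- the first derivative test, positive derivative -/
theorem fdt {A B lam : ℝ} {φ φ1 φ2 : ℝ → ℝ} (hAB : A ≤ B) (h1 : ∀ x, HasDerivAt φ (φ1 x) x)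
    (h2 : ∀ x, HasDerivAt φ1 (φ2 x) x) (hc : Continuous φ2) (hlam : 0 < lam)
    (hl : ∀ x ∈ Set.Icc A B, lam ≤ φ1 x)
    (hs : (∀ x ∈ Set.Icc A B, 0 ≤ φ2 x) ∨ (∀ x ∈ Set.Icc A B, φ2 x ≤ 0)) :
    ‖∫ x in A..B, ex (φ x)‖ ≤ 3 / lam := by
  have hφc : Continuous φ := continuous_iff_continuousAt.2 fun x => (h1 x).continuousAt
  have hφ1c : Continuous φ1 := continuous_iff_continuousAt.2 fun x => (h2 x).continuousAt
  have hexc : Continuous fun x => ex (φ x) := by
    unfold ex
    fun_prop
  have hne : ∀ x ∈ Set.Icc A B, φ1 x ≠ 0 := fun x hx => (lt_of_lt_of_le hlam (hl x hx)).ne'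
  have huIcc : Set.uIcc A B = Set.Icc A B := Set.uIcc_of_le hAB
  -- the antiderivative
  have hG : ∀ x ∈ Set.uIcc A B, HasDerivAt (fun x => ex (φ x) * (((φ1 x)⁻¹ : ℝ) : ℂ))
      (Complex.I * ex (φ x) - ex (φ x) * ((φ2 x / φ1 x ^ 2 : ℝ) : ℂ)) x := by
    intro x hx
    rw [huIcc] at hx
    have h3 : HasDerivAt (fun x => ex (φ x)) (ex (φ x) * ((φ1 x : ℂ) * Complex.I)) x := by
      unfold ex
      exact ((h1 x).ofReal_comp.mul_const Complex.I).cexp
    have h4 : HasDerivAt (fun x => (((φ1 x)⁻¹ : ℝ) : ℂ)) (((-(φ2 x) / φ1 x ^ 2 : ℝ)) : ℂ) x :=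
      ((h2 x).inv (hne x hx)).ofReal_comp
    have h5 := h3.mul h4
    refine h5.congr_deriv ?_
    have h6 : (φ1 x : ℂ) ≠ 0 := by exact_mod_cast hne x hx
    push_cast
    field_simp
    ring
  have hwc : ContinuousOn (fun x => φ2 x / φ1 x ^ 2) (Set.Icc A B) := by
    apply ContinuousOn.div hc.continuousOn (hφ1c.pow 2).continuousOn
    intro x hx
    exact pow_ne_zero 2 (hne x hx)
  have hi1 : IntervalIntegrable (fun x => Complex.I * ex (φ x)) volume A B :=
    (continuous_const.mul hexc).intervalIntegrable _ _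
  have hi2 : IntervalIntegrable (fun x => ex (φ x) * ((φ2 x / φ1 x ^ 2 : ℝ) : ℂ)) volume A B := by
    apply ContinuousOn.intervalIntegrable
    rw [huIcc]
    exact hexc.continuousOn.mul (Complex.continuous_ofReal.comp_continuousOn hwc)
  have hftc := intervalIntegral.integral_eq_sub_of_hasDerivAt hG (hi1.sub hi2)
  rw [intervalIntegral.integral_sub hi1 hi2, intervalIntegral.integral_const_mul] at hftc
  have hbd : ∀ x ∈ Set.Icc A B, ‖ex (φ x) * (((φ1 x)⁻¹ : ℝ) : ℂ)‖ ≤ 1 / lam := by
    intro x hx
    rw [norm_mul, norm_ex, one_mul, Complex.norm_real, Real.norm_eq_abs, abs_inv,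
      abs_of_pos (lt_of_lt_of_le hlam (hl x hx)), ← one_div]
    exact one_div_le_one_div_of_le hlam (hl x hx)
  -- the integral of the error
  have hinv : ∀ x ∈ Set.Icc A B, 0 < (φ1 x)⁻¹ ∧ (φ1 x)⁻¹ ≤ 1 / lam := by
    intro x hx
    refine ⟨inv_pos.2 (lt_of_lt_of_le hlam (hl x hx)), ?_⟩
    rw [← one_div]
    exact one_div_le_one_div_of_le hlam (hl x hx)
  have hwi : IntervalIntegrable (fun x => φ2 x / φ1 x ^ 2) volume A B := by
    apply ContinuousOn.intervalIntegrable
    rw [huIcc]
    exact hwc
  have hwint : ∫ x in A..B, φ2 x / φ1 x ^ 2 = (φ1 A)⁻¹ - (φ1 B)⁻¹ := by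
    have h3 : ∀ x ∈ Set.uIcc A B, HasDerivAt (fun x => -(φ1 x)⁻¹) (φ2 x / φ1 x ^ 2) x := by
      intro x hx
      rw [huIcc] at hx
      have := ((h2 x).inv (hne x hx)).neg
      refine this.congr_deriv ?_
      ring
    rw [intervalIntegral.integral_eq_sub_of_hasDerivAt h3 hwi]
    ring
  have herr : ‖∫ x in A..B, ex (φ x) * ((φ2 x / φ1 x ^ 2 : ℝ) : ℂ)‖ ≤ 1 / lam := by
    have hA := hinv A ⟨le_rfl, hAB⟩
    have hB := hinv B ⟨hAB, le_rfl⟩
    rcases hs with hs | hs
    · refine (intervalIntegral.norm_integral_le_of_norm_le hAB (g := fun x => φ2 x / φ1 x ^ 2) ?_ hwi).trans ?_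
      · refine Filter.Eventually.of_forall fun x hx => ?_
        have hx' : x ∈ Set.Icc A B := ⟨hx.1.le, hx.2⟩
        rw [norm_mul, norm_ex, one_mul, Complex.norm_real, Real.norm_eq_abs]
        rw [abs_of_nonneg (div_nonneg (hs x hx') (by positivity))]
      · rw [hwint]
        linarith [hA.2, hB.1]
    · refine (intervalIntegral.norm_integral_le_of_norm_le hAB (g := fun x => -(φ2 x / φ1 x ^ 2)) ?_ hwi.neg).trans ?_
      · refine Filter.Eventually.of_forall fun x hx => ?_
        have hx' : x ∈ Set.Icc A B := ⟨hx.1.le, hx.2⟩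
        rw [norm_mul, norm_ex, one_mul, Complex.norm_real, Real.norm_eq_abs]
        rw [abs_of_nonpos (div_nonpos_of_nonpos_of_nonneg (hs x hx') (by positivity))]
      · rw [intervalIntegral.integral_neg, hwint]
        linarith [hB.2, hA.1]
  have hkey : ‖Complex.I * ∫ x in A..B, ex (φ x)‖ ≤ 3 / lam := by
    have h3 : Complex.I * ∫ x in A..B, ex (φ x) =
        ex (φ B) * (((φ1 B)⁻¹ : ℝ) : ℂ) - ex (φ A) * (((φ1 A)⁻¹ : ℝ) : ℂ) +
          ∫ x in A..B, ex (φ x) * ((φ2 x / φ1 x ^ 2 : ℝ) : ℂ) := by
      rw [← hftc]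
      ring
    rw [h3]
    calc _ ≤ ‖ex (φ B) * (((φ1 B)⁻¹ : ℝ) : ℂ)‖ + ‖ex (φ A) * (((φ1 A)⁻¹ : ℝ) : ℂ)‖ +
          ‖∫ x in A..B, ex (φ x) * ((φ2 x / φ1 x ^ 2 : ℝ) : ℂ)‖ :=
          (norm_add_le _ _).trans (by gcongr; exact norm_sub_le _ _)
      _ ≤ 1 / lam + 1 / lam + 1 / lam := by
          gcongr
          · exact hbd B ⟨hAB, le_rfl⟩
          · exact hbd A ⟨le_rfl, hAB⟩
      _ = 3 / lam := by ring
  rwa [norm_mul, Complex.norm_I, one_mul] at hkey

/-- the first derivative test, negative derivative -/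
theorem fdt' {A B lam : ℝ} {φ φ1 φ2 : ℝ → ℝ} (hAB : A ≤ B) (h1 : ∀ x, HasDerivAt φ (φ1 x) x)
    (h2 : ∀ x, HasDerivAt φ1 (φ2 x) x) (hc : Continuous φ2) (hlam : 0 < lam)
    (hl : ∀ x ∈ Set.Icc A B, φ1 x ≤ -lam)
    (hs : (∀ x ∈ Set.Icc A B, 0 ≤ φ2 x) ∨ (∀ x ∈ Set.Icc A B, φ2 x ≤ 0)) :
    ‖∫ x in A..B, ex (φ x)‖ ≤ 3 / lam := by
  rw [← norm_neg]
  refine fdt (φ1 := fun x => -φ1 x) (φ2 := fun x => -φ2 x) hAB (fun x => (h1 x).neg)
    (fun x => (h2 x).neg) hc.neg hlam (fun x hx => by linarith [hl x hx]) ?_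
  rcases hs with hs | hs
  · exact Or.inr fun x hx => by linarith [hs x hx]
  · exact Or.inl fun x hx => by linarith [hs x hx]

/-- the phase -/
noncomputable def ph (S T c d a b x : ℝ) : ℝ := 2 * π * (a * Real.exp (S * x + c) + b * Real.exp (T * x + d))

theorem lin (S c x : ℝ) : HasDerivAt (fun x : ℝ => Real.exp (S * x + c)) (S * Real.exp (S * x + c)) x := by
  have h1 : HasDerivAt (fun x : ℝ => S * x + c) S x := by
    simpa using ((hasDerivAt_id x).const_mul S).add_const c
  have := h1.exp
  rwa [mul_comm] at this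

theorem ph_deriv (S T c d a b x : ℝ) :
    HasDerivAt (ph S T c d a b) (ph S T c d (a * S) (b * T) x) x := by
  unfold ph
  have h1 := ((lin S c x).const_mul a).add ((lin T d x).const_mul b)
  refine (h1.const_mul (2 * π)).congr_deriv ?_
  ring

theorem ph_cont (S T c d a b : ℝ) : Continuous (ph S T c d a b) := by
  unfold ph
  fun_prop

theorem ph_neg (S T c d a b x : ℝ) : ph S T c d (-a) (-b) x = -ph S T c d a b x := by
  unfold ph
  ring

/-- the case of a stationary point -/
theorem stat {A B S T c d a b lam r : ℝ} (hAB : A ≤ B) (hS : 1 ≤ S) (hT : S + 1 ≤ T) (ha : a < 0)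
    (hb : 0 < b) (hlam : lam = b * Real.exp (T * A + d)) (hr0 : 0 < r) (hr1 : r ≤ 1) :
    ‖∫ x in A..B, ex (ph S T c d a b x)‖ ≤ 2 * r + 9 / (lam * r) := by
  have hlam0 : 0 < lam := by rw [hlam]; positivity
  have hS0 : 0 < S := by linarith
  have hT0 : 0 < T := by linarith
  have hTS : 1 ≤ T - S := by linarith
  have hTS0 : 0 < T - S := by linarith
  have hpi := Real.pi_gt_three
  set K : ℝ := -(a * S * Real.exp (c - d)) / (b * T) with hK
  have hK0 : 0 < K := by
    rw [hK]
    apply div_pos _ (by positivity)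
    have : 0 < -a * S * Real.exp (c - d) := by
      have : 0 < -a := by linarith
      positivity
    linarith
  set xs : ℝ := Real.log K / (T - S) with hxs
  set xt : ℝ := Real.log (K * (S / T)) / (T - S) with hxt
  have hexs : Real.exp ((T - S) * xs) = K := by
    rw [hxs, mul_div_cancel₀ _ hTS0.ne', Real.exp_log hK0]
  have hext : Real.exp ((T - S) * xt) = K * (S / T) := by
    rw [hxt, mul_div_cancel₀ _ hTS0.ne', Real.exp_log (by positivity)]
  -- the first derivative
  have hd1 : ∀ x, ph S T c d (a * S) (b * T) x =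
      2 * π * (b * T * Real.exp (T * x + d)) * (1 - Real.exp ((T - S) * (xs - x))) := by
    intro x
    unfold ph
    have h1 : Real.exp ((T - S) * (xs - x)) = K * Real.exp (-((T - S) * x)) := by
      rw [← hexs, ← Real.exp_add]
      congr 1
      ring
    have h2 : Real.exp (T * x + d) * (Real.exp (c - d) * Real.exp (-((T - S) * x))) =
        Real.exp (S * x + c) := by
      rw [← Real.exp_add, ← Real.exp_add]
      congr 1
      ring
    rw [h1, ← h2, hK]
    field_simp
    ring
  -- the second derivative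
  have hd2 : ∀ x, ph S T c d (a * S * S) (b * T * T) x =
      2 * π * (b * T * T * Real.exp (T * x + d)) * (1 - Real.exp ((T - S) * (xt - x))) := by
    intro x
    unfold ph
    have h1 : Real.exp ((T - S) * (xt - x)) = K * (S / T) * Real.exp (-((T - S) * x)) := by
      rw [← hext, ← Real.exp_add]
      congr 1
      ring
    have h2 : Real.exp (T * x + d) * (Real.exp (c - d) * Real.exp (-((T - S) * x))) =
        Real.exp (S * x + c) := by
      rw [← Real.exp_add, ← Real.exp_add]
      congr 1
      ring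
    rw [h1, ← h2, hK]
    field_simp
    ring
  have hts : xt ≤ xs := by
    rw [hxt, hxs]
    apply div_le_div_of_nonneg_right _ hTS0.le
    apply Real.log_le_log (by positivity)
    have : S / T ≤ 1 := by rw [div_le_one hT0]; linarith
    nlinarith
  have hbase : ∀ x, A ≤ x → lam ≤ b * T * Real.exp (T * x + d) := by
    intro x hx
    have h1 : Real.exp (T * A + d) ≤ Real.exp (T * x + d) := by
      apply Real.exp_le_exp.2
      nlinarith
    have h2 : 1 ≤ T := by linarith
    rw [hlam]
    have h3 : 0 < Real.exp (T * A + d) := Real.exp_pos _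
    calc b * Real.exp (T * A + d) ≤ b * Real.exp (T * x + d) := by gcongr
      _ = b * 1 * Real.exp (T * x + d) := by ring
      _ ≤ b * T * Real.exp (T * x + d) := by gcongr
  have hs2pos : ∀ x, xt ≤ x → 0 ≤ ph S T c d (a * S * S) (b * T * T) x := by
    intro x hx
    rw [hd2]
    have : Real.exp ((T - S) * (xt - x)) ≤ 1 := by
      rw [Real.exp_le_one_iff]
      nlinarith
    apply mul_nonneg (by positivity)
    linarith
  have hs2neg : ∀ x, x ≤ xt → ph S T c d (a * S * S) (b * T * T) x ≤ 0 := by
    intro x hx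
    rw [hd2]
    have : 1 ≤ Real.exp ((T - S) * (xt - x)) := by
      rw [Real.one_le_exp_iff]
      nlinarith
    apply mul_nonpos_of_nonneg_of_nonpos (by positivity)
    linarith
  have hs1pos : ∀ x, A ≤ x → xs + r ≤ x → lam * r ≤ ph S T c d (a * S) (b * T) x := by
    intro x hxA hx
    rw [hd1]
    have h1 : Real.exp ((T - S) * (xs - x)) ≤ 1 - r / 2 := by
      have h2 : (T - S) * (xs - x) ≤ -r := by nlinarith
      have h3 : Real.exp ((T - S) * (xs - x)) ≤ Real.exp (-r) := Real.exp_le_exp.2 h2
      have h4 : Real.exp (-r) ≤ 1 - r / 2 := by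
        have h5 := Real.add_one_le_exp r
        rw [Real.exp_neg]
        rw [inv_le_comm₀ (Real.exp_pos _) (by linarith)]
        refine le_trans ?_ h5
        rw [inv_le_comm₀ (by linarith) (by linarith), ← one_div, div_le_iff₀ (by linarith)]
        nlinarith
      linarith
    have h2 := hbase x hxA
    calc lam * r ≤ 2 * π * lam * (r / 2) := by nlinarith [mul_pos hlam0 hr0]
      _ ≤ 2 * π * (b * T * Real.exp (T * x + d)) * (1 - Real.exp ((T - S) * (xs - x))) := by
        gcongr
        linarith
  have hs1neg : ∀ x, A ≤ x → x ≤ xs - r → ph S T c d (a * S) (b * T) x ≤ -(lam * r) := by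
    intro x hxA hx
    rw [hd1]
    have h1 : 1 + r ≤ Real.exp ((T - S) * (xs - x)) := by
      have h2 : r ≤ (T - S) * (xs - x) := by nlinarith
      have h3 := Real.add_one_le_exp ((T - S) * (xs - x))
      linarith
    have h2 := hbase x hxA
    have h3 : lam * r ≤ 2 * π * (b * T * Real.exp (T * x + d)) * (Real.exp ((T - S) * (xs - x)) - 1) := by
      calc lam * r ≤ 2 * π * lam * r := by nlinarith [mul_pos hlam0 hr0]
        _ ≤ _ := by
          gcongr
          linarith
    linarith
  -- the cut points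
  set cl : ℝ → ℝ := fun t => max A (min t B) with hcl
  have cl_mono : ∀ s t, s ≤ t → cl s ≤ cl t := fun s t h => max_le_max le_rfl (min_le_min h le_rfl)
  have cl_A : ∀ t, A ≤ cl t := fun t => le_max_left _ _
  have cl_B : ∀ t, cl t ≤ B := fun t => max_le hAB (min_le_right _ _)
  have cl_le : ∀ t, A < cl t → cl t ≤ t := by
    intro t h
    have h1 : cl t = min t B := by
      simp only [hcl] at h ⊢
      rcases le_total A (min t B) with h2 | h2
      · exact max_eq_right h2
      · rw [max_eq_left h2] at h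
        exact absurd h (lt_irrefl _)
    rw [h1]
    exact min_le_left _ _
  have le_cl : ∀ t, cl t < B → t ≤ cl t := by
    intro t h
    rcases le_total t B with h2 | h2
    · simp only [hcl]
      rw [min_eq_left h2]
      exact le_max_right _ _
    · simp only [hcl] at h
      rw [min_eq_right h2] at h
      exact absurd h (not_lt.2 (le_max_right _ _))
  have hp12 : min xt (xs - r) ≤ xs - r := min_le_right _ _
  have hp23 : xs - r ≤ xs + r := by linarith
  set c1 := cl (min xt (xs - r)) with hc1
  set c2 := cl (xs - r) with hc2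
  set c3 := cl (xs + r) with hc3
  have h12 : c1 ≤ c2 := cl_mono _ _ hp12
  have h23 : c2 ≤ c3 := cl_mono _ _ hp23
  have hcont : Continuous fun x => ex (ph S T c d a b x) := by
    unfold ex
    have := ph_cont S T c d a b
    fun_prop
  have hii : ∀ p q : ℝ, IntervalIntegrable (fun x => ex (ph S T c d a b x)) volume p q :=
    fun p q => hcont.intervalIntegrable p q
  have hsplit : ∫ x in A..B, ex (ph S T c d a b x) =
      (∫ x in A..c1, ex (ph S T c d a b x)) + (∫ x in c1..c2, ex (ph S T c d a b x)) +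
      (∫ x in c2..c3, ex (ph S T c d a b x)) + ∫ x in c3..B, ex (ph S T c d a b x) := by
    rw [intervalIntegral.integral_add_adjacent_intervals (hii _ _) (hii _ _),
      intervalIntegral.integral_add_adjacent_intervals (hii _ _) (hii _ _),
      intervalIntegral.integral_add_adjacent_intervals (hii _ _) (hii _ _)]
  have hlr : 0 < lam * r := mul_pos hlam0 hr0
  have hD1 := ph_deriv S T c d a b
  have hD2 := ph_deriv S T c d (a * S) (b * T)
  have hD3 := ph_cont S T c d (a * S * S) (b * T * T)
  -- first piece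
  have b1 : ‖∫ x in A..c1, ex (ph S T c d a b x)‖ ≤ 3 / (lam * r) := by
    rcases eq_or_lt_of_le (cl_A (min xt (xs - r))) with h | h
    · rw [hc1, ← h, intervalIntegral.integral_same, norm_zero]
      positivity
    · have hle := cl_le _ h
      refine fdt' (cl_A _) hD1 hD2 hD3 hlr ?_ (Or.inr ?_)
      · intro x hx
        exact hs1neg x hx.1 (hx.2.trans (hle.trans (min_le_right _ _)))
      · intro x hx
        exact hs2neg x (hx.2.trans (hle.trans (min_le_left _ _)))
  have b2 : ‖∫ x in c1..c2, ex (ph S T c d a b x)‖ ≤ 3 / (lam * r) := by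
    rcases eq_or_lt_of_le h12 with h | h
    · rw [← h, intervalIntegral.integral_same, norm_zero]
      positivity
    · have hA2 : A < c2 := lt_of_le_of_lt (cl_A _) h
      have hB1 : c1 < B := lt_of_lt_of_le h (cl_B _)
      have hle := cl_le _ hA2
      have hge := le_cl _ hB1
      have hxt1 : xt ≤ c1 := by
        rcases le_total xt (xs - r) with h3 | h3
        · rw [hc1]
          rw [min_eq_left h3] at hge ⊢
          exact hge
        · exfalso
          rw [hc1, min_eq_right h3] at h
          exact lt_irrefl _ h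
      refine fdt' h12 hD1 hD2 hD3 hlr ?_ (Or.inl ?_)
      · intro x hx
        exact hs1neg x ((cl_A _).trans hx.1) (hx.2.trans hle)
      · intro x hx
        exact hs2pos x (hxt1.trans hx.1)
  have b3 : ‖∫ x in c2..c3, ex (ph S T c d a b x)‖ ≤ 2 * r := by
    have h1 : ‖∫ x in c2..c3, ex (ph S T c d a b x)‖ ≤ 1 * |c3 - c2| := by
      apply intervalIntegral.norm_integral_le_of_norm_le_const
      intro x _
      rw [norm_ex]
    have h2 : c3 - c2 ≤ 2 * r := by
      have h3 : c3 ≤ c2 + 2 * r := by
        rw [hc3, hc2]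
        simp only [hcl]
        apply max_le
        · have := le_max_left A (min (xs - r) B)
          linarith
        · have h4 := le_max_right A (min (xs - r) B)
          have h5 : min (xs + r) B ≤ min (xs - r) B + 2 * r := by
            rcases le_total (xs - r) B with h6 | h6
            · rw [min_eq_left h6]
              have := min_le_left (xs + r) B
              linarith
            · rw [min_eq_right h6]
              have := min_le_right (xs + r) B
              linarith
          linarith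
      linarith
    rw [one_mul, abs_of_nonneg (by linarith)] at h1
    linarith
  have b4 : ‖∫ x in c3..B, ex (ph S T c d a b x)‖ ≤ 3 / (lam * r) := by
    rcases eq_or_lt_of_le (cl_B (xs + r)) with h | h
    · rw [hc3, h, intervalIntegral.integral_same, norm_zero]
      positivity
    · have hge := le_cl _ h
      refine fdt (cl_B _) hD1 hD2 hD3 hlr ?_ (Or.inl ?_)
      · intro x hx
        exact hs1pos x ((cl_A _).trans hx.1) (hge.trans hx.1)
      · intro x hx
        apply hs2pos
        have := hge.trans hx.1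
        linarith
  rw [hsplit]
  calc _ ≤ ‖∫ x in A..c1, ex (ph S T c d a b x)‖ + ‖∫ x in c1..c2, ex (ph S T c d a b x)‖ +
        ‖∫ x in c2..c3, ex (ph S T c d a b x)‖ + ‖∫ x in c3..B, ex (ph S T c d a b x)‖ := by
        refine (norm_add_le _ _).trans ?_
        gcongr
        refine (norm_add_le _ _).trans ?_
        gcongr
        exact norm_add_le _ _
    _ ≤ 3 / (lam * r) + 3 / (lam * r) + 2 * r + 3 / (lam * r) := by gcongr
    _ = 2 * r + 9 / (lam * r) := by ring

/-- two exponentials, `b > 0` -/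
theorem pos_case {A B S T c d a b : ℝ} (hAB : A < B) (hS : 1 ≤ S) (hT : S + 1 ≤ T) (hb : 0 < b) :
    ‖∫ x in A..B, ex (ph S T c d a b x)‖ ≤ (11 + (B - A)) / √(b * Real.exp (T * A + d)) := by
  set lam := b * Real.exp (T * A + d) with hlam
  have hlam0 : 0 < lam := by positivity
  have hsq : 0 < √lam := Real.sqrt_pos.2 hlam0
  have hBA : 0 < B - A := by linarith
  have hpi := Real.pi_gt_three
  by_cases h1 : lam < 1
  · have h2 : √lam ≤ 1 := Real.sqrt_le_iff.2 ⟨by norm_num, by linarith⟩
    have h3 : ‖∫ x in A..B, ex (ph S T c d a b x)‖ ≤ 1 * |B - A| := by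
      apply intervalIntegral.norm_integral_le_of_norm_le_const
      intro x _
      rw [norm_ex]
    rw [one_mul, abs_of_pos hBA] at h3
    refine h3.trans ?_
    rw [le_div_iff₀ hsq]
    nlinarith
  push Not at h1
  have hs1 : 1 ≤ √lam := by
    rw [show (1 : ℝ) = √1 by simp]
    exact Real.sqrt_le_sqrt h1
  by_cases ha : 0 ≤ a
  · have hS0 : 0 < S := by linarith
    have hT0 : 0 < T := by linarith
    have h2 : ‖∫ x in A..B, ex (ph S T c d a b x)‖ ≤ 3 / lam := by
      refine fdt hAB.le (ph_deriv S T c d a b) (ph_deriv S T c d (a * S) (b * T))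
        (ph_cont S T c d (a * S * S) (b * T * T)) hlam0 ?_ (Or.inl ?_)
      · intro x hx
        unfold ph
        have h3 : Real.exp (T * A + d) ≤ Real.exp (T * x + d) := by
          apply Real.exp_le_exp.2
          nlinarith [hx.1]
        have h4 : lam ≤ b * T * Real.exp (T * x + d) := by
          rw [hlam]
          calc b * Real.exp (T * A + d) ≤ b * Real.exp (T * x + d) := by gcongr
            _ = b * 1 * Real.exp (T * x + d) := by ring
            _ ≤ b * T * Real.exp (T * x + d) := by
              gcongr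
              linarith
        have h5 : 0 ≤ a * S * Real.exp (S * x + c) := by positivity
        nlinarith
      · intro x _
        unfold ph
        positivity
    refine h2.trans ?_
    rw [div_le_div_iff₀ hlam0 hsq]
    have h3 : √lam ≤ lam := by
      rw [Real.sqrt_le_left hlam0.le]
      nlinarith
    nlinarith
  · push Not at ha
    have h2 := stat (A := A) (B := B) (c := c) (r := 1 / √lam) hAB.le hS hT ha hb hlam
      (by positivity) (by rw [div_le_one hsq]; exact hs1)
    refine h2.trans ?_
    have h3 : lam * (1 / √lam) = √lam := by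
      rw [mul_one_div, div_eq_iff hsq.ne', Real.mul_self_sqrt hlam0.le]
    rw [h3]
    have h4 : 2 * (1 / √lam) + 9 / √lam = 11 / √lam := by ring
    rw [h4]
    gcongr
    linarith

theorem t_INT2 : S_INT2 := by
  intro A B hAB
  refine ⟨11 + (B - A), by linarith, ?_⟩
  intro S T c d a b hS hT hb
  show ‖∫ x in A..B, ex (ph S T c d a b x)‖ ≤ _
  rcases lt_or_gt_of_ne hb with hb | hb
  · have h1 := pos_case (c := c) (d := d) (a := -a) (b := -b) hAB hS hT (by linarith)
    simp only [ph_neg] at h1
    rw [norm_neg] at h1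
    rw [abs_of_neg hb]
    exact h1
  · have h1 := pos_case (c := c) (d := d) (a := a) (b := b) hAB hS hT hb
    rw [abs_of_pos hb]
    exact h1

theorem t_INT1 : S_INT1 := by
  refine ⟨1, one_pos, ?_⟩
  intro A B S c a hAB hS ha
  have hpi := Real.pi_gt_three
  have key : ∀ a' : ℝ, 0 < a' → ‖∫ x in A..B, ex (ph S S c c 0 a' x)‖ ≤
      1 / (a' * Real.exp (S * A + c)) := by
    intro a' ha'
    set lam := a' * Real.exp (S * A + c) with hlam
    have hlam0 : 0 < lam := by positivity
    have hS0 : 0 < S := by linarith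
    have h2 : ‖∫ x in A..B, ex (ph S S c c 0 a' x)‖ ≤ 3 / (3 * lam) := by
      refine fdt hAB.le (ph_deriv S S c c 0 a') (ph_deriv S S c c (0 * S) (a' * S))
        (ph_cont S S c c (0 * S * S) (a' * S * S)) (by positivity) ?_ (Or.inl ?_)
      · intro x hx
        unfold ph
        have h3 : Real.exp (S * A + c) ≤ Real.exp (S * x + c) := by
          apply Real.exp_le_exp.2
          nlinarith [hx.1]
        have h4 : lam ≤ a' * S * Real.exp (S * x + c) := by
          rw [hlam]
          calc a' * Real.exp (S * A + c) ≤ a' * Real.exp (S * x + c) := by gcongr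
            _ = a' * 1 * Real.exp (S * x + c) := by ring
            _ ≤ a' * S * Real.exp (S * x + c) := by gcongr
        nlinarith
      · intro x _
        unfold ph
        positivity
    refine h2.trans (le_of_eq ?_)
    field_simp
  have hph : ∀ x, (2 * π * (a * Real.exp (S * x + c)) : ℝ) = ph S S c c 0 a x := by
    intro x
    unfold ph
    ring
  simp only [hph]
  show ‖∫ x in A..B, ex (ph S S c c 0 a x)‖ ≤ _
  rcases lt_or_gt_of_ne ha with ha | ha
  · have h1 := key (-a) (by linarith)
    have h2 : ∀ x, ph S S c c 0 (-a) x = -ph S S c c 0 a x := by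
      intro x
      unfold ph
      ring
    simp only [h2] at h1
    rw [norm_neg] at h1
    rw [abs_of_neg ha]
    exact h1
  · rw [abs_of_pos ha]
    exact key a ha

end Pool.Agent.Helper98.NNP
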